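import Pool.Agent.Helper20.EX.Main
import Pool.Agent.Helper20.EX.RankNe
import Pool.Agent.Helper20.EX2.WildA

set_option autoImplicit false

namespace Pool.Agent.Results.MP_023469_lc.ExactGraphs

open Pool.Agent.Helper20 Pool.Agent.Helper20.Spectra Pool.Agent.Helper20.OP Pool.Agent.Helper20.EX
  Pool.Agent.Helper29.EX Pool.Agent.Helper32.MX Pool.Agent.Helper12.SS

/-- Let `K` be the class of the finite graphs which satisfy a first-order sentence `ψ`, and let it be
closed under subgraphs. The spectra over `K` are exactly the rudimentary sets of positive integers if and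
only if `K` is somewhere dense and RUD = S. In detail: `K` is somewhere dense if and only if it contains
all finite subgraphs of `stars` (infinitely many infinite stars with infinitely many infinite rays), and
then all rudimentary sets are spectra over `K`; otherwise the spectra over `K` are spectra of sentences of
quantifier rank at most `3` with relation symbols of arity at most `2`, and some spectrum is not of this
form. If `K` contains all finite
subgraphs of `claws` (infinitely many infinite stars with three rays), then some spectrum `U` over `K` is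
universal (the spectra are exactly the sets of the `n ≥ 1` with `h n ∈ U`, `h` a polynomial), and all
spectra over `K` are rudimentary if and only if RUD = S. Unconditionally, the spectra over `K` of all
sentences of monadic second-order logic are rudimentary (even with advice of linear length) if and only if
`K` does not contain all finite subgraphs of `claws`, and then all of them are ultimately periodic. -/
theorem result (K : ∀ n : ℕ, Str 1 (Fin n) → Prop) (ψ : (binLang 1).Sentence) (hK : DefBy K ψ)
    (hM : Monotone K) :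
    ((∀ A : Set ℕ, SpectrumOver K A ↔ (IsRudimentary A ∧ 0 ∉ A)) ↔
      (SomewhereDense K ∧ ∀ A : Set ℕ, IsSpectrum A ↔ (IsRudimentary A ∧ 0 ∉ A))) ∧
    (SomewhereDense K ↔ HasAll stars K) ∧
    (SomewhereDense K → ∀ A : Set ℕ, IsRudimentary A → 0 ∉ A → SpectrumOver K A) ∧
    (¬ SomewhereDense K → ∀ A : Set ℕ, SpectrumOver K A → RankSpectrum 3 2 A) ∧
    (∃ A : Set ℕ, IsSpectrum A ∧ ¬ RankSpectrum 3 2 A) ∧
    (HasAll FS.claws K →
      (∃ U : Set ℕ, SpectrumOver K U ∧ ∀ A : Set ℕ, IsSpectrum A ↔
        ∃ h : Polynomial ℕ, A = {n : ℕ | 1 ≤ n ∧ h.eval n ∈ U}) ∧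
      ((∀ A : Set ℕ, SpectrumOver K A → IsRudimentary A) ↔
        ∀ A : Set ℕ, IsSpectrum A ↔ (IsRudimentary A ∧ 0 ∉ A)) ∧
      ∃ A : Set ℕ, MSpectrumOver K A ∧ ¬ RudAdv A) ∧
    (∀ A : Set ℕ, IsRudimentary A → RudAdv A) ∧
    (∀ A : Set ℕ, SpectrumOver K A → MSpectrumOver K A) ∧
    (¬ HasAll FS.claws K → ∀ A : Set ℕ, MSpectrumOver K A → UltPeriodic A) := by
  obtain ⟨h1, h2, h3, -, h5⟩ := exact_mono K ψ hK hM
  exact ⟨mono_exact hK hM, h1, fun h => (h2 h).1, fun h => (h3 h).1, exists_not_rankSpectrum 3 2,
    fun h => ⟨(h5 h).1, (h5 h).2, EX2.mso_wildAdv hK hM h⟩, Pool.Agent.Helper38.DG.advOf,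
    fun A hA => EX2.mspec_fo hA, (EX2.mso_dichotomyAdv hK hM).2⟩

end Pool.Agent.Results.MP_023469_lc.ExactGraphs
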