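import Pool.Agent.Helper20.EX.Main
import Pool.Agent.Helper20.EX.RankNe
import Pool.Agent.Helper20.EX2.WildA

set_option autoImplicit false

namespace Pool.Agent.Results.MP_023469_lc.ExactGraphs

open Pool.Agent.Helper20 Pool.Agent.Helper20.Spectra Pool.Agent.Helper20.OP Pool.Agent.Helper20.EX
  Pool.Agent.Helper29.EX Pool.Agent.Helper32.MX Pool.Agent.Helper12.SS

/-- The spectra over `K` are as complicated as all spectra: one of them is universal under polynomial
preimages, all of them are rudimentary if and only if RUD = S, and some monadic second-order spectrum over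
`K` is not rudimentary, even with advice. -/
def Wild (K : ∀ n : ℕ, Str 1 (Fin n) → Prop) : Prop :=
  (∃ U : Set ℕ, SpectrumOver K U ∧ ∀ A : Set ℕ, IsSpectrum A ↔
    ∃ h : Polynomial ℕ, A = {n : ℕ | 1 ≤ n ∧ h.eval n ∈ U}) ∧
  ((∀ A : Set ℕ, SpectrumOver K A → IsRudimentary A) ↔
    ∀ A : Set ℕ, IsSpectrum A ↔ (IsRudimentary A ∧ 0 ∉ A)) ∧
  ∃ A : Set ℕ, MSpectrumOver K A ∧ ¬ IsRudimentary A ∧ ¬ RudAdv A

/-- **Trichotomy.** Let `K` be the class of the finite graphs which satisfy a first-order sentence `ψ`, and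
let it be closed under subgraphs. Either `K` is somewhere dense, `K` is wild, all rudimentary sets of
positive integers are spectra over `K`, and there are no other ones if and only if RUD = S; or `K` is nowhere
dense and contains all forests of subdivided claws, `K` is wild, all spectra over `K` are spectra of
sentences of quantifier rank at most `3` with relation symbols of arity at most `2`, some spectrum is
not of this form, and the spectra over `K` are not exactly the rudimentary sets of positive integers; or `K`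
does not contain all forests of subdivided claws, and all spectra over `K`, even of sentences of monadic
second-order logic, are ultimately periodic. -/
theorem result (K : ∀ n : ℕ, Str 1 (Fin n) → Prop) (ψ : (binLang 1).Sentence) (hK : DefBy K ψ)
    (hM : Monotone K) :
    (SomewhereDense K ∧ HasAll FS.claws K ∧ Wild K ∧
      (∀ A : Set ℕ, IsRudimentary A → 0 ∉ A → SpectrumOver K A) ∧
      ((∀ A : Set ℕ, SpectrumOver K A ↔ (IsRudimentary A ∧ 0 ∉ A)) ↔
        ∀ A : Set ℕ, IsSpectrum A ↔ (IsRudimentary A ∧ 0 ∉ A))) ∨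
    (¬ SomewhereDense K ∧ HasAll FS.claws K ∧ Wild K ∧
      (∀ A : Set ℕ, SpectrumOver K A → IsSpectrum A ∧ RankSpectrum 3 2 A) ∧
      (∃ A : Set ℕ, IsSpectrum A ∧ ¬ RankSpectrum 3 2 A) ∧
      ¬ ∀ A : Set ℕ, SpectrumOver K A ↔ (IsRudimentary A ∧ 0 ∉ A)) ∨
    (¬ SomewhereDense K ∧ ¬ HasAll FS.claws K ∧
      (∀ A : Set ℕ, SpectrumOver K A → MSpectrumOver K A) ∧
      ∀ A : Set ℕ, MSpectrumOver K A → UltPeriodic A) := by
  obtain ⟨h1, h2, h3, -, h5⟩ := exact_mono K ψ hK hM
  have hW : HasAll FS.claws K → Wild K := by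
    intro hc
    obtain ⟨A, hA, hA'⟩ := EX2.mso_wildAdv hK hM hc
    exact ⟨(h5 hc).1, (h5 hc).2, A, hA, fun h => hA' (Pool.Agent.Helper38.DG.advOf A h), hA'⟩
  by_cases hD : SomewhereDense K
  · have hc : HasAll FS.claws K := hasAll_claws_of_stars (h1.1 hD)
    exact Or.inl ⟨hD, hc, hW hc, h2 hD⟩
  · by_cases hc : HasAll FS.claws K
    · exact Or.inr (Or.inl ⟨hD, hc, hW hc,
        fun A hA => ⟨over_isSpectrum hK hA, (h3 hD).1 A hA⟩, exists_not_rankSpectrum 3 2, (h3 hD).2⟩)
    · exact Or.inr (Or.inr ⟨hD, hc, fun A hA => EX2.mspec_fo hA, (EX2.mso_dichotomyAdv hK hM).2 hc⟩)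

end Pool.Agent.Results.MP_023469_lc.ExactGraphs
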